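import Pool.Agent.CurveApprox.Geom

open Real Finset Filter
open scoped ENNReal

namespace Pool.Agent.Results.MP_d7cd59_an.HalfPiBounds

open Pool.Agent.CurveApprox

noncomputable section

/-- The constant `c₃` of the problem. -/
def c3 : ℝ≥0∞ := limsup (fun n : ℕ => (n : ℝ≥0∞) * dev (polyCurves n) Gamma1) atTop

/-- The constant `c₄` of the problem. -/
def c4 : ℝ≥0∞ := limsup (fun n : ℕ => (n : ℝ≥0∞) * dev (trigCurves n) Gamma1) atTop

lemma scaled (n : ℕ) (d : ℝ≥0∞) (h : d ≤ ENNReal.ofReal (Real.sin (π/(2*(n+2))))) :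
    (n : ℝ≥0∞) * d ≤ ENNReal.ofReal (π/2) := by
  have hpi := Real.pi_pos
  refine (mul_le_mul_right h _).trans ?_
  rw [← ENNReal.ofReal_natCast, ← ENNReal.ofReal_mul (Nat.cast_nonneg n)]
  apply ENNReal.ofReal_le_ofReal
  have h1 : Real.sin (π/(2*(n+2))) ≤ π/(2*(n+2)) := Real.sin_le (by positivity)
  have h2 : (n:ℝ) * Real.sin (π/(2*(n+2))) ≤ n * (π/(2*(n+2))) :=
    mul_le_mul_of_nonneg_left h1 (Nat.cast_nonneg n)
  refine h2.trans ?_
  rw [mul_div_assoc', div_le_div_iff₀ (by positivity) (by norm_num)]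
  nlinarith [Nat.cast_nonneg (α := ℝ) n]

/-- For every `n`, both deviations are at most `sin(π/(2(n+2)))`; hence `c₃, c₄ ≤ π/2`. -/
theorem result :
    (∀ n : ℕ, dev (polyCurves n) Gamma1 ≤ ENNReal.ofReal (Real.sin (π/(2*(n+2)))) ∧
      dev (trigCurves n) Gamma1 ≤ ENNReal.ofReal (Real.sin (π/(2*(n+2))))) ∧
    c3 ≤ ENNReal.ofReal (π/2) ∧ c4 ≤ ENNReal.ofReal (π/2) := by
  have hpi := Real.pi_pos
  have hs : ∀ n : ℕ, 0 ≤ Real.sin (π/(2*(n+2))) := by
    intro n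
    apply Real.sin_nonneg_of_nonneg_of_le_pi
    · positivity
    · rw [div_le_iff₀ (by positivity)]
      nlinarith [Nat.cast_nonneg (α := ℝ) n]
  have h1 : ∀ n : ℕ, dev (polyCurves n) Gamma1 ≤ ENNReal.ofReal (Real.sin (π/(2*(n+2)))) := fun n =>
    dev_poly_le n _ (hs n) fun h hh => cos_approx h hh n
  have h2 : ∀ n : ℕ, dev (trigCurves n) Gamma1 ≤ ENNReal.ofReal (Real.sin (π/(2*(n+2)))) := fun n =>
    dev_trig_le n _ (hs n) fun h hh => cos_approx h hh n
  refine ⟨fun n => ⟨h1 n, h2 n⟩, ?_, ?_⟩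
  · exact limsup_le_of_le (h := Eventually.of_forall fun n => scaled n _ (h1 n))
  · exact limsup_le_of_le (h := Eventually.of_forall fun n => scaled n _ (h2 n))

end

end Pool.Agent.Results.MP_d7cd59_an.HalfPiBounds
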